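import Pool.Agent.Lib.MP_abf784_co.Proof

namespace Pool.Agent.Results.MP_abf784_co.NeverNice

open Pool.Agent.Lib.MP_abf784_co

/-- The family `fam` (directed path on four vertices, transitive triangle, cyclic triangle) is
finite and contains an oriented forest, and for every `k ≥ 1` it satisfies
`p_k < q_k = 3 ^ k`; so it is `k`-nice for no `k ≥ 1`. -/
theorem result :
    fam.Finite ∧ (∃ F ∈ fam, F.2.IsForest) ∧
      ∀ k : ℕ, 1 ≤ k → pNum fam k < qNum fam k ∧ qNum fam k = 3 ^ k :=
  main

end Pool.Agent.Results.MP_abf784_co.NeverNice
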